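import Mathlib

/-!
Every rank on the bounded Baire class 1 functions on Polish spaces with the properties
(P1)-(P4) is essentially equal to the separation rank: restriction monotonicity is not needed.
-/

open Set Topology Filter Ordinal

namespace Pool.Agent.Results.MP_12cd8a_lc.FourProperties

/-- `F` is a continuous decreasing sequence of closed sets of length `lam` with `F 0` the whole
space, continued by the empty set from `lam` on. -/
structure IsClosedSeq {X : Type} [TopologicalSpace X] (F : Ordinal.{0} → Set X)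
    (lam : Ordinal.{0}) : Prop where
  closed : ∀ η, IsClosed (F η)
  anti : ∀ η θ, η ≤ θ → F θ ⊆ F η
  zero : F 0 = Set.univ
  cont : ∀ η, η < lam → Order.IsSuccLimit η → F η = ⋂ θ ∈ Set.Iio η, F θ
  last : Order.IsSuccLimit lam → ⋂ θ ∈ Set.Iio lam, F θ = ∅
  vanish : ∀ η, lam ≤ η → F η = ∅

/-- The transfinite difference: the union of `F η \ F (η + 1)` over the even `η < lam`. -/
def transDiff {X : Type} (F : Ordinal.{0} → Set X) (lam : Ordinal.{0}) : Set X :=
  {x | ∃ η, η < lam ∧ 2 ∣ η ∧ x ∈ F η ∧ x ∉ F (η + 1)}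

/-- The rank `α₁(B, C)`. -/
noncomputable def sepRank {X : Type} [TopologicalSpace X] (B C : Set X) : Ordinal.{0} :=
  sInf {lam | ∃ F : Ordinal.{0} → Set X, IsClosedSeq F lam ∧ B ⊆ transDiff F lam ∧
    transDiff F lam ∩ C = ∅}

/-- The rank `α₁(f)`. -/
noncomputable def alphaOne {X : Type} [TopologicalSpace X] (f : X → ℝ) : Ordinal.{0} :=
  ⨆ pq : {pq : ℚ × ℚ // pq.1 < pq.2},
    sepRank {x | f x ≤ (pq.1.1 : ℝ)} {x | (pq.1.2 : ℝ) ≤ f x}

/-- Bounded Baire class 1 functions. -/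
def IsBddBaireOne {X : Type} [TopologicalSpace X] (f : X → ℝ) : Prop :=
  (∃ M : ℝ, ∀ x, |f x| ≤ M) ∧
    ∃ G : ℕ → X → ℝ, (∀ n, Continuous (G n)) ∧
      ∀ x, Tendsto (fun n => G n x) atTop (𝓝 (f x))

/-- The relation `θ ≲ θ'`. -/
def LessSim (θ θ' : Ordinal.{0}) : Prop :=
  ∀ η : Ordinal.{0}, 1 ≤ η → η < ω_ 1 → θ' ≤ ω ^ η → θ ≤ ω ^ η

/-- The relation `θ ≈ θ'`. -/
def Approx (θ θ' : Ordinal.{0}) : Prop := LessSim θ θ' ∧ LessSim θ' θ

/-- A family of maps, one for each Polish space, assigning ordinals to real functions. -/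
abbrev RankFamily : Type 1 :=
  ∀ (X : Type) [TopologicalSpace X] [PolishSpace X], (X → ℝ) → Ordinal.{0}

/-- A rank assigns countable ordinals to the bounded Baire class 1 functions. -/
def IsRank (ρ : RankFamily) : Prop :=
  ∀ (X : Type) [TopologicalSpace X] [PolishSpace X] (f : X → ℝ), IsBddBaireOne f →
    ρ X f < ω_ 1

/-- (P1) -/
def P1 (ρ : RankFamily) : Prop :=
  ∀ (X : Type) [TopologicalSpace X] [PolishSpace X] (A : Set X), IsGδ A → IsGδ Aᶜ →
    Approx (ρ X (A.indicator (fun _ => (1 : ℝ)))) (sepRank A Aᶜ)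

/-- (P2) -/
def P2 (ρ : RankFamily) : Prop :=
  ∀ (X : Type) [TopologicalSpace X] [PolishSpace X] (f g : X → ℝ), IsBddBaireOne f →
    IsBddBaireOne g →
      (∀ c : ℝ, c ≠ 0 → Approx (ρ X (fun x => c * f x)) (ρ X f)) ∧
      LessSim (ρ X (fun x => f x + g x)) (max (ρ X f) (ρ X g))

/-- (P3) -/
def P3 (ρ : RankFamily) : Prop :=
  ∀ (X : Type) [TopologicalSpace X] [PolishSpace X] (f : X → ℝ) (g : ℕ → X → ℝ),
    IsBddBaireOne f → (∀ n, IsBddBaireOne (g n)) → TendstoUniformly g f atTop →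
      LessSim (ρ X f) (⨆ n, ρ X (g n))

/-- (P4) -/
def P4 (ρ : RankFamily) : Prop :=
  ∀ (X : Type) [TopologicalSpace X] [PolishSpace X] (f : X → ℝ), IsBddBaireOne f →
    ∀ h : ℝ → ℝ, (∃ K, LipschitzWith K h) → LessSim (ρ X (fun x => h (f x))) (ρ X f)

/-! ### The derivative -/

section Deriv

variable {X : Type} [TopologicalSpace X]

/-- the derivative operation. -/
def Del (B C F : Set X) : Set X := closure (F ∩ B) ∩ closure (F ∩ C)

lemma Del_mono {B C F B' C' F' : Set X} (hB : B ⊆ B') (hC : C ⊆ C') (hF : F ⊆ F') :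
    Del B C F ⊆ Del B' C' F' :=
  inter_subset_inter (closure_mono (inter_subset_inter hF hB))
    (closure_mono (inter_subset_inter hF hC))

/-- the iterated derivative. -/
noncomputable def Dr (B C : Set X) (β : Ordinal.{0}) : Set X :=
  ⋂ γ : Set.Iio β, Del B C (Dr B C γ.1)
termination_by β
decreasing_by exact γ.2

lemma mem_Dr {B C : Set X} {β : Ordinal.{0}} {x : X} :
    x ∈ Dr B C β ↔ ∀ γ, γ < β → x ∈ Del B C (Dr B C γ) := by
  rw [Dr, mem_iInter]
  exact ⟨fun h γ hγ => h ⟨γ, hγ⟩, fun h γ => h γ.1 γ.2⟩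

lemma Dr_anti (B C : Set X) {β γ : Ordinal.{0}} (h : γ ≤ β) : Dr B C β ⊆ Dr B C γ := by
  intro x hx
  rw [mem_Dr] at hx ⊢
  exact fun δ hδ => hx δ (lt_of_lt_of_le hδ h)

lemma Dr_zero (B C : Set X) : Dr B C 0 = Set.univ := by
  refine eq_univ_of_forall fun x => mem_Dr.2 fun γ hγ => ?_
  exact absurd hγ not_lt_zero

lemma Dr_closed (B C : Set X) (β : Ordinal.{0}) : IsClosed (Dr B C β) := by
  rw [Dr]
  exact isClosed_iInter fun γ => isClosed_closure.inter isClosed_closure

lemma Dr_succ_sub (B C : Set X) {β γ : Ordinal.{0}} (h : γ < β) :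
    Dr B C β ⊆ Del B C (Dr B C γ) := fun _ hx => mem_Dr.1 hx γ h

lemma Dr_mono {B C B' C' : Set X} (hB : B ⊆ B') (hC : C ⊆ C') (β : Ordinal.{0}) :
    Dr B C β ⊆ Dr B' C' β := by
  induction β using WellFoundedLT.induction with
  | ind β ih =>
    intro x hx
    rw [mem_Dr] at hx ⊢
    exact fun γ hγ => Del_mono hB hC (ih γ hγ) (hx γ hγ)

end Deriv

/-! ### Ordinal arithmetic -/

lemma two_mul_div {η : Ordinal.{0}} (h : 2 ∣ η) : 2 * (η / 2) = η := by
  obtain ⟨β, rfl⟩ := h
  rw [Ordinal.mul_div_cancel _ (by norm_num)]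

lemma decomp (η : Ordinal.{0}) : η = 2 * (η / 2) ∨ η = 2 * (η / 2) + 1 := by
  have h1 := Ordinal.div_add_mod η 2
  have h2 : η % 2 < 2 := Ordinal.mod_lt η (by norm_num)
  have h3 : η % 2 = 0 ∨ η % 2 = 1 := by
    have : (2 : Ordinal.{0}) = 1 + 1 := by norm_num
    rw [this] at h2
    have h4 : η % 2 ≤ 1 := by
      rw [← Order.lt_add_one_iff]
      convert h2 using 2
    rcases h4.lt_or_eq with h | h
    · left
      exact Order.lt_one_iff.1 h
    · right; exact h
  rcases h3 with h | h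
  · left; rw [h, add_zero] at h1; exact h1.symm
  · right; rw [h] at h1; exact h1.symm

lemma two_dvd_or (η : Ordinal.{0}) : 2 ∣ η ∨ ¬ 2 ∣ η := em _

lemma decomp_of_dvd {η : Ordinal.{0}} (h : ¬ 2 ∣ η) : η = 2 * (η / 2) + 1 := by
  rcases decomp η with h' | h'
  · exact absurd ⟨_, h'⟩ h
  · exact h'

lemma not_dvd_add_one (β : Ordinal.{0}) : ¬ (2 : Ordinal.{0}) ∣ 2 * β + 1 := by
  intro h
  have h1 : (2 * β + 1) % 2 = 0 := Ordinal.mod_eq_zero_of_dvd h
  rw [Ordinal.mul_add_mod_self] at h1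
  have h2 : (1 : Ordinal.{0}) % 2 = 1 := Ordinal.mod_eq_of_lt (by norm_num)
  rw [h2] at h1
  exact one_ne_zero h1

lemma div_two_add_one (β : Ordinal.{0}) : (2 * β + 1) / 2 = β := by
  rw [Ordinal.mul_add_div _ (by norm_num)]
  have : (1 : Ordinal.{0}) / 2 = 0 := Ordinal.div_eq_zero_of_lt (by norm_num)
  rw [this, add_zero]

lemma two_mul_mono {β γ : Ordinal.{0}} (h : β < γ) : 2 * β + 2 ≤ 2 * γ := by
  have h1 : β + 1 ≤ γ := Order.add_one_le_of_lt h
  calc 2 * β + 2 = 2 * (β + 1) := by rw [mul_add, mul_one]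
    _ ≤ 2 * γ := mul_le_mul_right h1 2

/-! ### From the derivative to sequences and back -/

section Seq

variable {X : Type} [TopologicalSpace X]

open Classical in
/-- the sequence obtained from the derivative. -/
noncomputable def FF (B C : Set X) (θ : Ordinal.{0}) : Set X :=
  if 2 ∣ θ then Dr B C (θ / 2) else closure (Dr B C (θ / 2) ∩ C)

lemma FF_even (B C : Set X) (β : Ordinal.{0}) : FF B C (2 * β) = Dr B C β := by
  unfold FF
  rw [if_pos (Dvd.intro _ rfl), Ordinal.mul_div_cancel _ (by norm_num)]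

lemma FF_odd (B C : Set X) (β : Ordinal.{0}) :
    FF B C (2 * β + 1) = closure (Dr B C β ∩ C) := by
  unfold FF
  rw [if_neg (not_dvd_add_one β), div_two_add_one]

lemma FF_sub (B C : Set X) (θ : Ordinal.{0}) : FF B C θ ⊆ Dr B C (θ / 2) := by
  unfold FF
  split_ifs
  · exact subset_rfl
  · exact closure_minimal inter_subset_left (Dr_closed B C _)

lemma sub_FF (B C : Set X) (θ : Ordinal.{0}) : closure (Dr B C (θ / 2) ∩ C) ⊆ FF B C θ := by
  unfold FF
  split_ifs
  · exact closure_minimal inter_subset_left (Dr_closed B C _)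
  · exact subset_rfl

lemma FF_anti (B C : Set X) (η θ : Ordinal.{0}) (h : η ≤ θ) : FF B C θ ⊆ FF B C η := by
  have hdiv : η / 2 ≤ θ / 2 := Ordinal.div_le_left h 2
  rcases hdiv.lt_or_eq with h1 | h1
  · refine (FF_sub B C θ).trans (((Dr_succ_sub B C h1).trans inter_subset_right).trans ?_)
    exact sub_FF B C η
  · rcases decomp η with he | he
    · rw [he, FF_even, h1]
      exact FF_sub B C θ
    · have hθ : θ = η := by
        rcases decomp θ with h2 | h2
        · exfalso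
          rw [← h1] at h2
          rw [h2, he, div_two_add_one] at h
          exact absurd h (not_le.2 (lt_add_one _))
        · rw [h2, ← h1]; exact he.symm
      rw [hθ]

lemma FF_limit (B C : Set X) {η : Ordinal.{0}} (h : Order.IsSuccLimit η) :
    FF B C η = ⋂ θ ∈ Set.Iio η, FF B C θ := by
  have hη : η = 2 * (η / 2) := by
    rcases decomp η with h' | h'
    · exact h'
    · exfalso
      rw [h'] at h
      exact Order.not_isSuccLimit_add_one _ h
  apply Subset.antisymm
  · exact subset_iInter₂ fun θ hθ => FF_anti B C θ η (le_of_lt hθ)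
  · intro x hx
    rw [mem_iInter₂] at hx
    rw [hη, FF_even, mem_Dr]
    intro γ hγ
    have h1 : 2 * γ + 2 ≤ η := by
      rw [hη]; exact two_mul_mono hγ
    have h2 : 2 * (γ + 1) = 2 * γ + 2 := by rw [mul_add, mul_one]
    have h3 : 2 * γ + 2 < η := by
      rcases h1.lt_or_eq with h3 | h3
      · exact h3
      · exfalso
        have h4 : 2 * γ + 2 = (2 * γ + 1) + 1 := by
          rw [add_assoc]; norm_num
        rw [← h3, h4] at h
        exact Order.not_isSuccLimit_add_one _ h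
    have h4 := hx (2 * (γ + 1)) (by rw [h2]; exact h3)
    rw [FF_even] at h4
    exact Dr_succ_sub B C (lt_add_one γ) h4

lemma isClosedSeq_FF (B C : Set X) {lam : Ordinal.{0}} (h : Dr B C lam = ∅) :
    IsClosedSeq (FF B C) (2 * lam) where
  closed := by
    intro η
    unfold FF
    split_ifs
    · exact Dr_closed _ _ _
    · exact isClosed_closure
  anti := FF_anti B C
  zero := by
    have := FF_even B C 0
    rw [mul_zero] at this
    rw [this, Dr_zero]
  cont := fun η _ hη => FF_limit B C hη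
  last := by
    intro hl
    rw [← FF_limit B C hl, FF_even, h]
  vanish := by
    intro η hη
    have := FF_anti B C _ _ hη
    rw [FF_even, h] at this
    exact subset_empty_iff.1 this

lemma sub_transDiff_FF (B C : Set X) {lam : Ordinal.{0}} (h : Dr B C lam = ∅) :
    B ⊆ transDiff (FF B C) (2 * lam) := by
  intro x hx
  -- the least stage at which x is removed
  have hne : ∃ β, x ∉ Dr B C β := ⟨lam, by rw [h]; exact notMem_empty x⟩
  obtain ⟨β, hβ, hmin⟩ : ∃ β, x ∉ Dr B C β ∧ ∀ γ, γ < β → x ∈ Dr B C γ := by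
    have hwf := (Ordinal.lt_wf).has_min {β : Ordinal.{0} | x ∉ Dr B C β} hne
    obtain ⟨β, hβ, hm⟩ := hwf
    exact ⟨β, hβ, fun γ hγ => by_contra fun hc => hm γ hc hγ⟩
  have hβl : β ≤ lam := by
    by_contra hc
    have := hmin lam (not_le.1 hc)
    rw [h] at this
    exact this
  rw [mem_Dr] at hβ
  push Not at hβ
  obtain ⟨γ, hγ, hγx⟩ := hβ
  have hxγ := hmin γ hγ
  refine ⟨2 * γ, ?_, Dvd.intro _ rfl, ?_, ?_⟩
  · have := two_mul_mono (lt_of_lt_of_le hγ hβl)
    exact lt_of_lt_of_le (lt_add_of_pos_right _ (by norm_num)) this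
  · rw [FF_even]; exact hxγ
  · rw [FF_odd]
    intro hc
    exact hγx ⟨subset_closure ⟨hxγ, hx⟩, hc⟩

lemma transDiff_FF_inter (B C : Set X) (lam : Ordinal.{0}) :
    transDiff (FF B C) lam ∩ C = ∅ := by
  rw [eq_empty_iff_forall_notMem]
  rintro x ⟨⟨η, hη, h2, h3, h4⟩, hx⟩
  obtain ⟨γ, rfl⟩ := h2
  rw [FF_even] at h3
  rw [FF_odd] at h4
  exact h4 (subset_closure ⟨h3, hx⟩)

lemma Dr_sub_seq {B C : Set X} {F : Ordinal.{0} → Set X} {lam : Ordinal.{0}}
    (hF : IsClosedSeq F lam) (hB : B ⊆ transDiff F lam) (hC : transDiff F lam ∩ C = ∅)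
    (β : Ordinal.{0}) : Dr B C β ⊆ F β := by
  induction β using WellFoundedLT.induction with
  | ind β ih =>
    rcases Ordinal.zero_or_succ_or_isSuccLimit β with h0 | ⟨γ, hγ⟩ | hl
    · rw [h0, hF.zero]; exact subset_univ _
    · rw [Order.succ_eq_add_one] at hγ
      subst hγ
      intro x hx
      have hx' := Dr_succ_sub B C (lt_add_one γ) hx
      have hsub := ih γ (lt_add_one γ)
      by_cases hd : 2 ∣ γ
      · have : closure (Dr B C γ ∩ C) ⊆ F (γ + 1) := by
          refine closure_minimal ?_ (hF.closed _)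
          rintro y ⟨hy, hyC⟩
          by_contra hcon
          have hγl : γ < lam := by
            by_contra hge
            have := hsub hy
            rw [hF.vanish γ (not_lt.1 hge)] at this
            exact this
          have : y ∈ transDiff F lam ∩ C := ⟨⟨γ, hγl, hd, hsub hy, hcon⟩, hyC⟩
          rw [hC] at this
          exact this
        exact this hx'.2
      · have : closure (Dr B C γ ∩ B) ⊆ F (γ + 1) := by
          refine closure_minimal ?_ (hF.closed _)
          rintro y ⟨hy, hyB⟩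
          by_contra hcon
          obtain ⟨η, hη, h2, h3, h4⟩ := hB hyB
          rcases lt_trichotomy γ η with h | h | h
          · exact hcon (hF.anti _ _ (Order.add_one_le_of_lt h) h3)
          · rw [h] at hd; exact hd h2
          · exact h4 (hF.anti _ _ (Order.add_one_le_of_lt h) (hsub hy))
        exact this hx'.1
    · rcases lt_trichotomy β lam with h | h | h
      · rw [hF.cont β h hl]
        exact subset_iInter₂ fun θ hθ => (Dr_anti B C (le_of_lt hθ)).trans (ih θ hθ)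
      · have h1 : Dr B C β ⊆ ⋂ θ ∈ Set.Iio lam, F θ := by
          refine subset_iInter₂ fun θ hθ => ?_
          have hθ' : θ < β := by rw [h]; exact hθ
          exact (Dr_anti B C (le_of_lt hθ')).trans (ih θ hθ')
        rw [hF.last (h ▸ hl)] at h1
        exact h1.trans (empty_subset _)
      · have h1 := (Dr_anti B C h.le).trans (ih lam h)
        rw [hF.vanish lam le_rfl] at h1
        exact h1.trans (empty_subset _)

end Seq

/-! ### Baire category: disjoint G-delta sets can be separated -/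

section Haus

variable {X : Type} [TopologicalSpace X]

lemma exists_Dr_empty [PolishSpace X] {B C : Set X} (hB : IsGδ B) (hC : IsGδ C)
    (hBC : B ∩ C = ∅) : ∃ lam, Dr B C lam = ∅ := by
  have hni := not_injective_of_ordinal (Dr B C)
  rw [Function.Injective] at hni
  push Not at hni
  obtain ⟨β, γ, hβγ, hne⟩ := hni
  obtain ⟨β, γ, hβγ, hlt⟩ : ∃ β γ, Dr B C β = Dr B C γ ∧ β < γ := by
    rcases lt_or_gt_of_ne hne with h | h
    · exact ⟨β, γ, hβγ, h⟩
    · exact ⟨γ, β, hβγ.symm, h⟩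
  refine ⟨β, ?_⟩
  set K := Dr B C β with hK
  have hKcl : IsClosed K := Dr_closed B C β
  have hsub : K ⊆ Del B C K := by
    have := Dr_succ_sub B C hlt
    rw [← hβγ] at this
    exact this
  by_contra hne'
  have hKne : K.Nonempty := nonempty_iff_ne_empty.2 hne'
  have : PolishSpace K := hKcl.polishSpace
  have : Nonempty K := hKne.to_subtype
  have dense_of : ∀ S : Set X, K ⊆ closure (K ∩ S) → Dense ((↑) ⁻¹' S : Set K) := by
    intro S hS x
    rw [mem_closure_iff]
    intro U hU hxU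
    obtain ⟨V, hV, rfl⟩ := isOpen_induced_iff.1 hU
    obtain ⟨y, hyV, hyK, hyS⟩ := mem_closure_iff.1 (hS x.2) V hV hxU
    exact ⟨⟨y, hyK⟩, hyV, hyS⟩
  have h1 := dense_of B (hsub.trans inter_subset_left)
  have h2 := dense_of C (hsub.trans inter_subset_right)
  have h3 : IsGδ ((↑) ⁻¹' B : Set K) := hB.preimage continuous_subtype_val
  have h4 : IsGδ ((↑) ⁻¹' C : Set K) := hC.preimage continuous_subtype_val
  have h5 := Dense.inter_of_Gδ h3 h4 h1 h2
  obtain ⟨x, hx1, hx2⟩ := h5.nonempty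
  have : (x : X) ∈ B ∩ C := ⟨hx1, hx2⟩
  rw [hBC] at this
  exact this

lemma sepSet_nonempty [PolishSpace X] {B C : Set X} (hB : IsGδ B) (hC : IsGδ C)
    (hBC : B ∩ C = ∅) : {lam | ∃ F : Ordinal.{0} → Set X, IsClosedSeq F lam ∧
      B ⊆ transDiff F lam ∧ transDiff F lam ∩ C = ∅}.Nonempty := by
  obtain ⟨lam, hlam⟩ := exists_Dr_empty hB hC hBC
  exact ⟨2 * lam, FF B C, isClosedSeq_FF B C hlam, sub_transDiff_FF B C hlam,
    transDiff_FF_inter B C _⟩

lemma exists_seq_of_sepRank_le [PolishSpace X] {B C : Set X} (hB : IsGδ B) (hC : IsGδ C)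
    (hBC : B ∩ C = ∅) {μ : Ordinal.{0}} (h : sepRank B C ≤ μ) :
    ∃ lam, lam ≤ μ ∧ ∃ F : Ordinal.{0} → Set X, IsClosedSeq F lam ∧
      B ⊆ transDiff F lam ∧ transDiff F lam ∩ C = ∅ :=
  ⟨sepRank B C, h, csInf_mem (sepSet_nonempty hB hC hBC)⟩

lemma sepRank_le {B C : Set X} {lam : Ordinal.{0}} {F : Ordinal.{0} → Set X}
    (h1 : IsClosedSeq F lam) (h2 : B ⊆ transDiff F lam) (h3 : transDiff F lam ∩ C = ∅) :
    sepRank B C ≤ lam := csInf_le' ⟨F, h1, h2, h3⟩

/-- A nonempty derivative of order `μ` forces the rank above `μ`. -/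
lemma lt_sepRank [PolishSpace X] {B C : Set X} (hB : IsGδ B) (hC : IsGδ C)
    (hBC : B ∩ C = ∅) {μ : Ordinal.{0}} (h : (Dr B C μ).Nonempty) : ¬ sepRank B C ≤ μ := by
  intro hle
  obtain ⟨lam, hlam, F, hF, h1, h2⟩ := exists_seq_of_sepRank_le hB hC hBC hle
  have h3 := (Dr_anti B C hlam).trans (Dr_sub_seq hF h1 h2 lam)
  rw [hF.vanish lam le_rfl] at h3
  obtain ⟨x, hx⟩ := h
  exact h3 hx

/-- Every point leaves a closed sequence at a successor stage. -/
lemma exists_layer {F : Ordinal.{0} → Set X} {lam : Ordinal.{0}} (hF : IsClosedSeq F lam)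
    (x : X) : ∃ η, η < lam ∧ x ∈ F η ∧ x ∉ F (η + 1) := by
  have hne : ∃ β, x ∉ F β := ⟨lam, by rw [hF.vanish lam le_rfl]; exact notMem_empty x⟩
  obtain ⟨β, hβ, hmin⟩ : ∃ β, x ∉ F β ∧ ∀ γ, γ < β → x ∈ F γ := by
    obtain ⟨β, hβ, hm⟩ := (Ordinal.lt_wf).has_min {β : Ordinal.{0} | x ∉ F β} hne
    exact ⟨β, hβ, fun γ hγ => by_contra fun hc => hm γ hc hγ⟩
  have hβl : β ≤ lam := by
    by_contra hc
    have := hmin lam (not_le.1 hc)
    rw [hF.vanish lam le_rfl] at this
    exact this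
  rcases Ordinal.zero_or_succ_or_isSuccLimit β with h0 | ⟨γ, hγ⟩ | hl
  · rw [h0, hF.zero] at hβ
    exact absurd (mem_univ x) hβ
  · rw [Order.succ_eq_add_one] at hγ
    subst hγ
    exact ⟨γ, lt_of_lt_of_le (lt_add_one γ) hβl, hmin γ (lt_add_one γ), hβ⟩
  · exfalso
    have hall : x ∈ ⋂ θ ∈ Set.Iio β, F θ := mem_iInter₂.2 fun θ hθ => hmin θ hθ
    rcases hβl.lt_or_eq with h | h
    · rw [← hF.cont β h hl] at hall
      exact hβ hall
    · subst h
      rw [hF.last hl] at hall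
      exact hall

lemma transDiff_compl {F : Ordinal.{0} → Set X} {lam : Ordinal.{0}} (hF : IsClosedSeq F lam) :
    (transDiff F lam)ᶜ = {x | ∃ η, η < lam ∧ ¬ 2 ∣ η ∧ x ∈ F η ∧ x ∉ F (η + 1)} := by
  ext x
  constructor
  · intro hx
    obtain ⟨η, h1, h2, h3⟩ := exists_layer hF x
    refine ⟨η, h1, ?_, h2, h3⟩
    intro h4
    exact hx ⟨η, h1, h4, h2, h3⟩
  · rintro ⟨η, h1, h2, h3, h4⟩ ⟨θ, g1, g2, g3, g4⟩
    rcases lt_trichotomy η θ with h | h | h
    · exact h4 (hF.anti _ _ (Order.add_one_le_of_lt h) g3)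
    · subst h; exact h2 g2
    · exact g4 (hF.anti _ _ (Order.add_one_le_of_lt h) h3)

lemma countable_Iio {lam : Ordinal.{0}} (h : lam < ω_ 1) : (Set.Iio lam).Countable := by
  rw [← Cardinal.le_aleph0_iff_set_countable, Cardinal.mk_Iio_ordinal]
  simp only [Cardinal.lift_le_aleph0]
  rw [← Cardinal.ord_aleph, Cardinal.lt_ord, Cardinal.lt_aleph_one_iff] at h
  exact h

lemma isGδ_layers [PolishSpace X] {F : Ordinal.{0} → Set X} {lam : Ordinal.{0}}
    (hF : IsClosedSeq F lam) (hl : lam < ω_ 1) (P : Ordinal.{0} → Prop) :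
    IsGδ {x | ∃ η, η < lam ∧ P η ∧ x ∈ F η ∧ x ∉ F (η + 1)}ᶜ := by
  let _ := TopologicalSpace.metrizableSpaceMetric X
  have e : {x | ∃ η, η < lam ∧ P η ∧ x ∈ F η ∧ x ∉ F (η + 1)}ᶜ =
      ⋂ η ∈ Set.Iio lam, {x | P η → x ∈ (F η)ᶜ ∪ F (η + 1)} := by
    ext x
    simp only [mem_compl_iff, mem_ofPred_eq, mem_iInter, mem_Iio, mem_union, not_exists, not_and,
      not_not]
    constructor
    · intro h η hη hP
      by_cases hx : x ∈ F η
      · exact Or.inr (h η hη hP hx)
      · exact Or.inl hx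
    · intro h η hη hP hx
      rcases h η hη hP with h' | h'
      · exact absurd hx h'
      · exact h'
  rw [e]
  refine IsGδ.biInter (countable_Iio hl) fun η _ => ?_
  by_cases hP : P η
  · have : {x | P η → x ∈ (F η)ᶜ ∪ F (η + 1)} = (F η)ᶜ ∪ F (η + 1) := by
      ext x; simp [hP]
    rw [this]
    exact (hF.closed η).isOpen_compl.isGδ.union (hF.closed _).isGδ
  · have : {x | P η → x ∈ (F η)ᶜ ∪ F (η + 1)} = Set.univ := by
      ext x; simp [hP]
    rw [this]
    exact IsGδ.univ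

end Haus

/-! ### Baire class 1 functions -/

section Baire

variable {X : Type} [TopologicalSpace X]

lemma baire_add {f g : X → ℝ} (hf : IsBddBaireOne f) (hg : IsBddBaireOne g) :
    IsBddBaireOne (fun x => f x + g x) := by
  obtain ⟨⟨M, hM⟩, F, hF1, hF2⟩ := hf
  obtain ⟨⟨N, hN⟩, G, hG1, hG2⟩ := hg
  refine ⟨⟨M + N, fun x => ?_⟩, fun n x => F n x + G n x, fun n => (hF1 n).add (hG1 n),
    fun x => (hF2 x).add (hG2 x)⟩
  exact (abs_add_le _ _).trans (add_le_add (hM x) (hN x))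

lemma baire_comp {f : X → ℝ} (hf : IsBddBaireOne f) {h : ℝ → ℝ} (hh : Continuous h) :
    IsBddBaireOne (fun x => h (f x)) := by
  obtain ⟨⟨M, hM⟩, F, hF1, hF2⟩ := hf
  refine ⟨?_, fun n x => h (F n x), fun n => hh.comp (hF1 n),
    fun x => (hh.tendsto _).comp (hF2 x)⟩
  obtain ⟨C, hC⟩ := (isCompact_Icc (a := -M) (b := M)).exists_bound_of_continuousOn
    hh.continuousOn
  exact ⟨C, fun x => hC (f x) (abs_le.1 (hM x))⟩

lemma baire_mul {f : X → ℝ} (hf : IsBddBaireOne f) (c : ℝ) :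
    IsBddBaireOne (fun x => c * f x) :=
  baire_comp hf (h := fun t => c * t) (continuous_const.mul continuous_id)

lemma baire_indicator [PolishSpace X] {A : Set X} (hA : IsGδ A) (hAc : IsGδ Aᶜ) :
    IsBddBaireOne (A.indicator (fun _ => (1 : ℝ))) := by
  classical
  let _ := TopologicalSpace.metrizableSpaceMetric X
  refine ⟨⟨1, fun x => ?_⟩, ?_⟩
  · by_cases hx : x ∈ A
    · rw [indicator_of_mem hx]; simp
    · rw [indicator_of_notMem hx]; simp
  obtain ⟨U, hU, hAU⟩ := isGδ_iff_eq_iInter_nat.1 hA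
  obtain ⟨V, hV, hAV⟩ := isGδ_iff_eq_iInter_nat.1 hAc
  -- P n ⊆ A and Q n ⊆ Aᶜ closed and increasing
  let P : ℕ → Set X := fun n => ⋃ i ∈ Set.Iic n, (V i)ᶜ
  let Q : ℕ → Set X := fun n => ⋃ i ∈ Set.Iic n, (U i)ᶜ
  have hPc : ∀ n, IsClosed (P n) := fun n =>
    (Set.finite_Iic n).isClosed_biUnion fun i _ => (hV i).isClosed_compl
  have hQc : ∀ n, IsClosed (Q n) := fun n =>
    (Set.finite_Iic n).isClosed_biUnion fun i _ => (hU i).isClosed_compl
  have hPA : ∀ n, P n ⊆ A := by
    intro n x hx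
    simp only [P, mem_iUnion] at hx
    obtain ⟨i, -, hi⟩ := hx
    by_contra hxA
    have : x ∈ ⋂ n, V n := by rw [← hAV]; exact hxA
    exact hi (mem_iInter.1 this i)
  have hQA : ∀ n, Q n ⊆ Aᶜ := by
    intro n x hx hxA
    simp only [Q, mem_iUnion] at hx
    obtain ⟨i, -, hi⟩ := hx
    have : x ∈ ⋂ n, U n := by rw [← hAU]; exact hxA
    exact hi (mem_iInter.1 this i)
  have hdisj : ∀ n, Disjoint (Q n) (P n) := fun n =>
    disjoint_left.2 fun x hx hx' => hQA n hx (hPA n hx')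
  choose f hf0 hf1 hf2 using fun n =>
    exists_continuous_zero_one_of_isClosed (hQc n) (hPc n) (hdisj n)
  refine ⟨fun n x => f n x, fun n => (f n).continuous, fun x => ?_⟩
  by_cases hx : x ∈ A
  · rw [indicator_of_mem hx]
    have : ∃ i, x ∉ V i := by
      by_contra hc
      push Not at hc
      have : x ∈ Aᶜ := by rw [hAV]; exact mem_iInter.2 hc
      exact this hx
    obtain ⟨i, hi⟩ := this
    refine tendsto_const_nhds.congr' ?_
    filter_upwards [eventually_ge_atTop i] with n hn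
    exact (hf1 n (mem_biUnion (show i ∈ Set.Iic n from hn) hi)).symm
  · rw [indicator_of_notMem hx]
    have : ∃ i, x ∉ U i := by
      by_contra hc
      push Not at hc
      exact hx (by rw [hAU]; exact mem_iInter.2 hc)
    obtain ⟨i, hi⟩ := this
    refine tendsto_const_nhds.congr' ?_
    filter_upwards [eventually_ge_atTop i] with n hn
    exact (hf0 n (mem_biUnion (show i ∈ Set.Iic n from hn) hi)).symm

lemma isGδ_le {f : X → ℝ} (hf : IsBddBaireOne f) (p : ℝ) : IsGδ {x | f x ≤ p} := by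
  obtain ⟨-, F, hF1, hF2⟩ := hf
  have e : {x | f x ≤ p} = ⋂ k : ℕ, ⋂ m : ℕ, ⋃ n : ℕ, ⋃ _ : m ≤ n,
      {x | F n x < p + 1 / ((k : ℝ) + 1)} := by
    ext x
    simp only [mem_ofPred_eq, mem_iInter, mem_iUnion, exists_prop]
    constructor
    · intro hx k m
      have h1 : f x < p + 1 / ((k : ℝ) + 1) := by
        have : (0 : ℝ) < 1 / ((k : ℝ) + 1) := by positivity
        linarith
      have h2 := (hF2 x).eventually (gt_mem_nhds h1)
      obtain ⟨n, hn1, hn2⟩ := (h2.and (eventually_ge_atTop m)).exists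
      exact ⟨n, hn2, hn1⟩
    · intro h
      refine le_of_forall_pos_le_add fun ε hε => ?_
      obtain ⟨k, hk⟩ := exists_nat_one_div_lt hε
      have h1 : f x ≤ p + 1 / ((k : ℝ) + 1) := by
        refine le_of_tendsto_of_frequently (hF2 x) ?_
        rw [Filter.frequently_atTop]
        intro m
        obtain ⟨n, hn1, hn2⟩ := h k m
        exact ⟨n, hn1, hn2.le⟩
      linarith
  rw [e]
  exact IsGδ.iInter fun k => IsGδ.iInter fun m => (isOpen_iUnion fun n => isOpen_iUnion fun _ =>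
    isOpen_lt (hF1 n) continuous_const).isGδ

lemma isGδ_ge {f : X → ℝ} (hf : IsBddBaireOne f) (q : ℝ) : IsGδ {x | q ≤ f x} := by
  have h := isGδ_le (baire_mul hf (-1)) (-q)
  have e : {x | q ≤ f x} = {x | -1 * f x ≤ -q} := by
    ext x
    simp only [mem_ofPred_eq]
    constructor <;> intro h <;> linarith
  rw [e]; exact h

end Baire

/-! ### Cutting down to a closed set -/

section Build

lemma closed_union {X : Type} [MetricSpace X] (x : X) (Y : ℕ → Set X)
    (hY : ∀ n, IsClosed (Y n)) (r : ℕ → ℝ) (hr : Tendsto r atTop (𝓝 0))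
    (hYr : ∀ n, Y n ⊆ Metric.closedBall x (r n)) : IsClosed ({x} ∪ ⋃ n, Y n) := by
  rw [← closure_subset_iff_isClosed]
  intro z hz
  by_cases hzx : z = x
  · left; exact hzx
  right
  have hd : 0 < dist z x := dist_pos.2 hzx
  have hev : ∀ᶠ n in atTop, r n < dist z x / 2 :=
    hr.eventually (gt_mem_nhds (half_pos hd))
  obtain ⟨N, hN⟩ := eventually_atTop.1 hev
  have hcl : IsClosed (Metric.closedBall x (dist z x / 2) ∪ ⋃ n ∈ Set.Iio N, Y n) :=
    Metric.isClosed_closedBall.union ((Set.finite_Iio N).isClosed_biUnion fun n _ => hY n)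
  have hsub : ({x} ∪ ⋃ n, Y n) ⊆ Metric.closedBall x (dist z x / 2) ∪ ⋃ n ∈ Set.Iio N, Y n := by
    rintro w (hw | hw)
    · left
      rw [mem_singleton_iff] at hw
      rw [hw]
      exact Metric.mem_closedBall_self (half_pos hd).le
    · obtain ⟨n, hn⟩ := mem_iUnion.1 hw
      rcases Nat.lt_or_ge n N with h | h
      · right; exact mem_biUnion (show n ∈ Set.Iio N from h) hn
      · left
        exact Metric.closedBall_subset_closedBall (hN n h).le (hYr n hn)
  rcases closure_minimal hsub hcl hz with h | h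
  · exfalso
    rw [Metric.mem_closedBall] at h
    linarith
  · obtain ⟨n, -, hn⟩ := mem_iUnion₂.1 h
    exact mem_iUnion.2 ⟨n, hn⟩

lemma build {X : Type} [MetricSpace X] {B C G : Set X} (hBG : B ⊆ G) (hCG : C ⊆ G)
    (β : Ordinal.{0}) (hβ : β < ω_ 1) : ∀ x ∈ Dr B C β, x ∈ G → ∀ ε : ℝ, 0 < ε →
      ∃ Y : Set X, IsClosed Y ∧ Y ⊆ Metric.closedBall x ε ∧ x ∈ Y ∧ Y ⊆ G ∧
        x ∈ Dr (B ∩ Y) (C ∩ Y) β := by
  induction β using WellFoundedLT.induction with
  | ind β ih =>
    intro x hx hxG ε hε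
    rcases (Set.Iio β).eq_empty_or_nonempty with hem | hne
    · refine ⟨{x}, isClosed_singleton, ?_, rfl, ?_, ?_⟩
      · rw [singleton_subset_iff]; exact Metric.mem_closedBall_self hε.le
      · rw [singleton_subset_iff]; exact hxG
      · rw [mem_Dr]
        intro γ hγ
        have : γ ∈ Set.Iio β := hγ
        rw [hem] at this
        exact absurd this (notMem_empty _)
    obtain ⟨g, hg⟩ := (countable_Iio hβ).exists_eq_range hne
    have hgmem : ∀ n, g n < β := fun n => by
      have : g n ∈ Set.Iio β := by rw [hg]; exact ⟨n, rfl⟩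
      exact this
    let r : ℕ → ℝ := fun n => min ε (1 / ((n : ℝ) + 1))
    have hr0 : ∀ n, 0 < r n := fun n => lt_min hε (by positivity)
    have hrlim : Tendsto r atTop (𝓝 0) := by
      have h1 : Tendsto (fun n : ℕ => 1 / ((n : ℝ) + 1)) atTop (𝓝 0) :=
        tendsto_one_div_add_atTop_nhds_zero_nat
      exact squeeze_zero (fun n => (hr0 n).le) (fun n => min_le_right _ _) h1
    -- pieces at the approximating points
    have piece : ∀ n, ∃ Y : Set X, IsClosed Y ∧ Y ⊆ Metric.closedBall x (r n) ∧ Y ⊆ G ∧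
        (∃ a, a ∈ Y ∧ a ∈ B ∧ a ∈ Dr (B ∩ Y) (C ∩ Y) (g n.unpair.1)) ∧
        (∃ b, b ∈ Y ∧ b ∈ C ∧ b ∈ Dr (B ∩ Y) (C ∩ Y) (g n.unpair.1)) := by
      intro n
      have hx' := mem_Dr.1 hx _ (hgmem n.unpair.1)
      have hrn := hr0 n
      obtain ⟨a, ⟨ha1, ha2⟩, ha3⟩ := Metric.mem_closure_iff.1 hx'.1 (r n / 2) (half_pos hrn)
      obtain ⟨b, ⟨hb1, hb2⟩, hb3⟩ := Metric.mem_closure_iff.1 hx'.2 (r n / 2) (half_pos hrn)
      obtain ⟨Ya, hYa1, hYa2, hYa3, hYa4, hYa5⟩ := ih _ (hgmem n.unpair.1)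
        ((hgmem _).trans hβ) a ha1 (hBG ha2) (r n / 2) (half_pos hrn)
      obtain ⟨Yb, hYb1, hYb2, hYb3, hYb4, hYb5⟩ := ih _ (hgmem n.unpair.1)
        ((hgmem _).trans hβ) b hb1 (hCG hb2) (r n / 2) (half_pos hrn)
      have hball : ∀ c : X, dist x c < r n / 2 →
          Metric.closedBall c (r n / 2) ⊆ Metric.closedBall x (r n) := by
        intro c hc w hw
        rw [Metric.mem_closedBall] at hw ⊢
        calc dist w x ≤ dist w c + dist c x := dist_triangle _ _ _
          _ ≤ r n / 2 + r n / 2 := by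
              rw [dist_comm c x]
              exact add_le_add hw hc.le
          _ = r n := by ring
      refine ⟨Ya ∪ Yb, hYa1.union hYb1, union_subset (hYa2.trans (hball a ha3))
        (hYb2.trans (hball b hb3)), union_subset hYa4 hYb4, ⟨a, Or.inl hYa3, ha2, ?_⟩,
        ⟨b, Or.inr hYb3, hb2, ?_⟩⟩
      · exact Dr_mono (inter_subset_inter_right _ subset_union_left)
          (inter_subset_inter_right _ subset_union_left) _ hYa5
      · exact Dr_mono (inter_subset_inter_right _ subset_union_right)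
          (inter_subset_inter_right _ subset_union_right) _ hYb5
    choose Y hY1 hY2 hY3 hYa hYb using piece
    refine ⟨{x} ∪ ⋃ n, Y n, closed_union x Y hY1 r hrlim hY2, ?_, Or.inl rfl, ?_, ?_⟩
    · refine union_subset ?_ (iUnion_subset fun n => ?_)
      · rw [singleton_subset_iff]; exact Metric.mem_closedBall_self hε.le
      · exact (hY2 n).trans (Metric.closedBall_subset_closedBall (min_le_left _ _))
    · refine union_subset ?_ (iUnion_subset hY3)
      rw [singleton_subset_iff]; exact hxG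
    · have hYsub : ∀ n, Y n ⊆ {x} ∪ ⋃ n, Y n := fun n =>
        (subset_iUnion Y n).trans subset_union_right
      rw [mem_Dr]
      intro γ hγ
      obtain ⟨m, hm⟩ : ∃ m, g m = γ := by
        have : γ ∈ Set.Iio β := hγ
        rw [hg] at this
        exact this
      have hfar : ∀ δ : ℝ, 0 < δ → ∃ n, n.unpair.1 = m ∧ r n < δ := by
        intro δ hδ
        have hev : ∀ᶠ n in atTop, r n < δ := hrlim.eventually (gt_mem_nhds hδ)
        obtain ⟨N, hN⟩ := eventually_atTop.1 hev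
        exact ⟨Nat.pair m N, by simp, hN _ (Nat.right_le_pair m N)⟩
      refine ⟨Metric.mem_closure_iff.2 fun δ hδ => ?_, Metric.mem_closure_iff.2 fun δ hδ => ?_⟩
      · obtain ⟨n, hn1, hn2⟩ := hfar δ hδ
        obtain ⟨a, ha1, ha2, ha3⟩ := hYa n
        rw [hn1, hm] at ha3
        refine ⟨a, ⟨?_, ha2, hYsub n ha1⟩, ?_⟩
        · exact Dr_mono (inter_subset_inter_right _ (hYsub n))
            (inter_subset_inter_right _ (hYsub n)) _ ha3
        · have := hY2 n ha1
          rw [Metric.mem_closedBall, dist_comm] at this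
          exact lt_of_le_of_lt this hn2
      · obtain ⟨n, hn1, hn2⟩ := hfar δ hδ
        obtain ⟨a, ha1, ha2, ha3⟩ := hYb n
        rw [hn1, hm] at ha3
        refine ⟨a, ⟨?_, ha2, hYsub n ha1⟩, ?_⟩
        · exact Dr_mono (inter_subset_inter_right _ (hYsub n))
            (inter_subset_inter_right _ (hYsub n)) _ ha3
        · have := hY2 n ha1
          rw [Metric.mem_closedBall, dist_comm] at this
          exact lt_of_le_of_lt this hn2

end Build

/-! ### The main argument -/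

section Main

lemma omega_le_opow {η : Ordinal.{0}} (h : 1 ≤ η) : ω ≤ ω ^ η := by
  calc ω = ω ^ (1 : Ordinal.{0}) := (opow_one ω).symm
    _ ≤ ω ^ η := opow_le_opow_right omega0_pos h

lemma two_mul_opow {η : Ordinal.{0}} (h : 1 ≤ η) : 2 * ω ^ η = ω ^ η := by
  refine mul_omega0_dvd (by norm_num) (Ordinal.natCast_lt_omega0 2) ?_
  have := opow_dvd_opow ω h
  rwa [opow_one] at this

lemma opow_lt_omega_one {η : Ordinal.{0}} (h : η < ω_ 1) : ω ^ η < ω_ 1 :=
  isPrincipal_opow_omega 1 omega0_lt_omega_one h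

variable {X : Type} [TopologicalSpace X]

lemma sepRank_le_of_Dr {B C : Set X} {lam : Ordinal.{0}} (h : Dr B C lam = ∅) :
    sepRank B C ≤ 2 * lam :=
  sepRank_le (isClosedSeq_FF B C h) (sub_transDiff_FF B C h) (transDiff_FF_inter B C _)

lemma sepRank_closed {A : Set X} (hA : IsClosed A) {η : Ordinal.{0}} (h : 1 ≤ η) :
    sepRank A Aᶜ ≤ ω ^ η := by
  have h1 : Dr A Aᶜ 1 ⊆ A := by
    refine (Dr_succ_sub A Aᶜ (zero_lt_one)).trans (inter_subset_left.trans ?_)
    exact closure_minimal inter_subset_right hA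
  have h2 : Dr A Aᶜ 2 = ∅ := by
    have h12 : (1 : Ordinal.{0}) < 2 := by norm_num
    have h3 := Dr_succ_sub A Aᶜ h12
    rw [eq_empty_iff_forall_notMem]
    intro x hx
    have h4 := (h3 hx).2
    have h5 : Dr A Aᶜ 1 ∩ Aᶜ = ∅ := by
      rw [eq_empty_iff_forall_notMem]
      rintro y ⟨hy, hyA⟩
      exact hyA (h1 hy)
    rw [h5, closure_empty] at h4
    exact h4
  refine (sepRank_le_of_Dr h2).trans ?_
  have h4 : (2 : Ordinal.{0}) * 2 = ((4 : ℕ) : Ordinal.{0}) := by norm_num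
  rw [h4]
  exact (Ordinal.natCast_lt_omega0 4).le.trans (omega_le_opow h)

variable [PolishSpace X] {ρ : RankFamily}

/-- functions of rank at most `μ`. -/
def Good (ρ : RankFamily) (μ : Ordinal.{0}) (f : X → ℝ) : Prop := IsBddBaireOne f ∧ ρ X f ≤ μ

lemma good_add (h2 : P2 ρ) {η : Ordinal.{0}} (hη : 1 ≤ η) (hη' : η < ω_ 1) {f g : X → ℝ}
    (hf : Good ρ (ω ^ η) f) (hg : Good ρ (ω ^ η) g) : Good ρ (ω ^ η) (fun x => f x + g x) :=
  ⟨baire_add hf.1 hg.1, (h2 X f g hf.1 hg.1).2 η hη hη' (max_le hf.2 hg.2)⟩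

lemma good_mul (h2 : P2 ρ) {η : Ordinal.{0}} (hη : 1 ≤ η) (hη' : η < ω_ 1) {f : X → ℝ}
    (hf : Good ρ (ω ^ η) f) {c : ℝ} (hc : c ≠ 0) : Good ρ (ω ^ η) (fun x => c * f x) :=
  ⟨baire_mul hf.1 c, ((h2 X f f hf.1 hf.1).1 c hc).1 η hη hη' hf.2⟩

lemma good_comp (h4 : P4 ρ) {η : Ordinal.{0}} (hη : 1 ≤ η) (hη' : η < ω_ 1) {f : X → ℝ}
    (hf : Good ρ (ω ^ η) f) {h : ℝ → ℝ} (hh : ∃ K, LipschitzWith K h) :
    Good ρ (ω ^ η) (fun x => h (f x)) :=
  ⟨baire_comp hf.1 hh.choose_spec.continuous, h4 X f hf.1 h hh η hη hη' hf.2⟩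

lemma good_closed (h1 : P1 ρ) {η : Ordinal.{0}} (hη : 1 ≤ η) (hη' : η < ω_ 1) {A : Set X}
    (hA : IsClosed A) : Good ρ (ω ^ η) (A.indicator (fun _ => (1 : ℝ))) := by
  let _ := TopologicalSpace.metrizableSpaceMetric X
  have h3 : IsGδ Aᶜ := hA.isOpen_compl.isGδ
  exact ⟨baire_indicator hA.isGδ h3, (h1 X A hA.isGδ h3).1 η hη hη' (sepRank_closed hA hη)⟩

lemma lower (h1 : P1 ρ) (h2 : P2 ρ) (h4 : P4 ρ) {f : X → ℝ} (hf : IsBddBaireOne f)
    {η : Ordinal.{0}} (hη : 1 ≤ η) (hη' : η < ω_ 1) (hρ : ρ X f ≤ ω ^ η) :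
    alphaOne f ≤ ω ^ η := by
  classical
  let _ := TopologicalSpace.metrizableSpaceMetric X
  refine Ordinal.iSup_le ?_
  rintro ⟨⟨p, q⟩, hpq⟩
  have hpq' : (p : ℝ) < (q : ℝ) := by exact_mod_cast hpq
  show sepRank {x | f x ≤ (p : ℝ)} {x | (q : ℝ) ≤ f x} ≤ ω ^ η
  by_cases hD : Dr {x | f x ≤ (p : ℝ)} {x | (q : ℝ) ≤ f x} (ω ^ η) = ∅
  · have := sepRank_le_of_Dr hD
    rwa [two_mul_opow hη] at this
  exfalso
  obtain ⟨x, hx⟩ := nonempty_iff_ne_empty.2 hD
  obtain ⟨p', q', hp1, hpq1, hq1, hxG⟩ : ∃ p' q' : ℝ, (p : ℝ) ≤ p' ∧ p' < q' ∧ q' ≤ (q : ℝ) ∧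
      (f x ≤ p' ∨ q' ≤ f x) := by
    rcases le_total (f x) (((p : ℝ) + q) / 2) with h | h
    · exact ⟨((p : ℝ) + q) / 2, ((p : ℝ) + 3 * q) / 4, by linarith, by linarith, by linarith,
        Or.inl h⟩
    · exact ⟨(3 * (p : ℝ) + q) / 4, ((p : ℝ) + q) / 2, by linarith, by linarith, by linarith,
        Or.inr h⟩
  set B : Set X := {x | f x ≤ (p : ℝ)} with hB
  set C : Set X := {x | (q : ℝ) ≤ f x} with hC
  let G : Set X := {y | f y ≤ p' ∨ q' ≤ f y}
  have hBG : B ⊆ G := fun y hy => Or.inl (le_trans hy hp1)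
  have hCG : C ⊆ G := fun y hy => Or.inr (le_trans hq1 hy)
  obtain ⟨Y, hYc, -, -, hYG, hxY⟩ := build hBG hCG (ω ^ η) (opow_lt_omega_one hη') x hx hxG 1
    one_pos
  -- the set A
  let A : Set X := Y ∩ {y | f y ≤ p'}
  have hAc : Aᶜ = Yᶜ ∪ {y | q' ≤ f y} := by
    ext y
    constructor
    · intro hy
      by_cases hyY : y ∈ Y
      · right
        rcases hYG hyY with h | h
        · exact absurd ⟨hyY, h⟩ hy
        · exact h
      · left; exact hyY
    · rintro (hy | hy) ⟨h1, h2⟩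
      · exact hy h1
      · have h3 : q' ≤ f y := hy
        have h4 : f y ≤ p' := h2
        linarith
  have hAδ : IsGδ A := hYc.isGδ.inter (isGδ_le hf p')
  have hAcδ : IsGδ Aᶜ := by
    rw [hAc]
    exact hYc.isOpen_compl.isGδ.union (isGδ_ge hf q')
  have hlt : ¬ sepRank A Aᶜ ≤ ω ^ η := by
    refine lt_sepRank hAδ hAcδ (inter_compl_self A) ⟨x, ?_⟩
    refine Dr_mono ?_ ?_ _ hxY
    · rintro y ⟨hy1, hy2⟩
      exact ⟨hy2, le_trans (show f y ≤ (p : ℝ) from hy1) hp1⟩
    · rintro y ⟨hy1, hy2⟩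
      rw [hAc]
      exact Or.inr (le_trans hq1 (show (q : ℝ) ≤ f y from hy1))
  -- but the indicator of A has small rank
  apply hlt
  refine (h1 X A hAδ hAcδ).2 η hη hη' ?_
  let h : ℝ → ℝ := fun t => max (min ((q' - t) / (q' - p')) 1) 0
  have hd : 0 < q' - p' := by linarith
  have hlip : ∃ K, LipschitzWith K h := by
    refine ⟨(1 / (q' - p')).toNNReal, ?_⟩
    have h0 : LipschitzWith (1 / (q' - p')).toNNReal (fun t : ℝ => (q' - t) / (q' - p')) := by
      refine LipschitzWith.of_dist_le_mul fun s t => ?_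
      rw [Real.dist_eq, Real.dist_eq, Real.coe_toNNReal _ (by positivity)]
      have e : (q' - s) / (q' - p') - (q' - t) / (q' - p') =
          -(1 / (q' - p')) * (s - t) := by
        field_simp; ring
      rw [e, abs_mul, abs_neg, abs_of_pos (by positivity : (0 : ℝ) < 1 / (q' - p'))]
    exact (h0.min_const 1).max_const 0
  have ga : Good ρ (ω ^ η) (Y.indicator (fun _ => (1 : ℝ))) := good_closed h1 hη hη' hYc
  have gb : Good ρ (ω ^ η) (fun y => h (f y)) := good_comp h4 hη hη' ⟨hf, hρ⟩ hlip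
  have g1 := good_add h2 hη hη' ga gb
  have g2 := good_mul h2 hη hη' gb (c := -1) (by norm_num)
  have g3 := good_add h2 hη hη' ga g2
  have g4 := good_comp h4 hη hη' g3 (h := fun t => |t|)
    ⟨1, lipschitzWith_one_norm⟩
  have g5 := good_mul h2 hη hη' g4 (c := -1) (by norm_num)
  have g6 := good_add h2 hη hη' g1 g5
  have g7 := good_mul h2 hη hη' g6 (c := 1 / 2) (by norm_num)
  have e : A.indicator (fun _ => (1 : ℝ)) = fun x => 1 / 2 *
      (Y.indicator (fun _ => (1 : ℝ)) x + h (f x) +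
        -1 * |Y.indicator (fun _ => (1 : ℝ)) x + -1 * h (f x)|) := by
    funext y
    by_cases hyY : y ∈ Y
    · rw [indicator_of_mem hyY]
      rcases hYG hyY with hy | hy
      · have hyA : y ∈ A := ⟨hyY, hy⟩
        rw [indicator_of_mem hyA]
        have hh : h (f y) = 1 := by
          have h5 : 1 ≤ (q' - f y) / (q' - p') := by
            rw [le_div_iff₀ hd]; linarith
          simp only [h]
          rw [min_eq_right h5]
          norm_num
        rw [hh]; norm_num
      · have hyA : y ∉ A := by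
          rintro ⟨-, h5⟩
          have h6 : f y ≤ p' := h5
          linarith
        rw [indicator_of_notMem hyA]
        have hh : h (f y) = 0 := by
          have h5 : (q' - f y) / (q' - p') ≤ 0 :=
            div_nonpos_of_nonpos_of_nonneg (by linarith) hd.le
          simp only [h]
          exact max_eq_right ((min_le_left _ _).trans h5)
        rw [hh]; norm_num
    · have hyA : y ∉ A := fun h5 => hyY h5.1
      rw [indicator_of_notMem hyA, indicator_of_notMem hyY]
      have h5 : 0 ≤ h (f y) := le_max_right _ _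
      have h6 : |0 + -1 * h (f y)| = h (f y) := by
        rw [zero_add, neg_one_mul, abs_neg, abs_of_nonneg h5]
      rw [h6]; ring
  rw [e]
  exact g7.2

lemma cnt (j K : ℕ) : ∑ i ∈ Finset.range K, (if j ≤ i then (1 : ℝ) else 0) =
    ((K - j : ℕ) : ℝ) := by
  induction K with
  | zero => simp
  | succ K ih =>
    rw [Finset.sum_range_succ, ih]
    by_cases h : j ≤ K
    · rw [if_pos h, Nat.succ_sub h]; push_cast; ring
    · rw [if_neg h, show K - j = 0 by omega, show K + 1 - j = 0 by omega]; norm_num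

lemma upper (h1 : P1 ρ) (h2 : P2 ρ) (h3 : P3 ρ) {f : X → ℝ} (hf : IsBddBaireOne f)
    {η : Ordinal.{0}} (hη : 1 ≤ η) (hη' : η < ω_ 1) (hα : alphaOne f ≤ ω ^ η) :
    ρ X f ≤ ω ^ η := by
  classical
  obtain ⟨M0, hM0⟩ := hf.1
  obtain ⟨M, hM⟩ := exists_nat_ge M0
  have hfM : ∀ x, |f x| ≤ M := fun x => (hM0 x).trans hM
  -- separating sets
  have sep : ∀ p q : ℚ, p < q → ∃ G : Set X, {x | f x ≤ (p : ℝ)} ⊆ G ∧
      (∀ x ∈ G, f x < (q : ℝ)) ∧ Good ρ (ω ^ η) (G.indicator (fun _ => (1 : ℝ))) := by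
    intro p q hpq
    have hpq' : (p : ℝ) < (q : ℝ) := by exact_mod_cast hpq
    have hle : sepRank {x | f x ≤ (p : ℝ)} {x | (q : ℝ) ≤ f x} ≤ ω ^ η :=
      (Ordinal.le_iSup (fun pq : {pq : ℚ × ℚ // pq.1 < pq.2} =>
        sepRank {x | f x ≤ (pq.1.1 : ℝ)} {x | (pq.1.2 : ℝ) ≤ f x}) ⟨(p, q), hpq⟩).trans hα
    have hdis : {x | f x ≤ (p : ℝ)} ∩ {x | (q : ℝ) ≤ f x} = ∅ := by
      rw [eq_empty_iff_forall_notMem]
      rintro x ⟨hx1, hx2⟩
      have h5 : f x ≤ (p : ℝ) := hx1
      have h6 : (q : ℝ) ≤ f x := hx2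
      linarith
    obtain ⟨lam, hlam, F, hF, g1, g2⟩ := exists_seq_of_sepRank_le (isGδ_le hf _) (isGδ_ge hf _)
      hdis hle
    have hlam' : lam < ω_ 1 := lt_of_le_of_lt hlam (opow_lt_omega_one hη')
    have k1 : IsGδ (transDiff F lam)ᶜ := isGδ_layers hF hlam' (fun η => 2 ∣ η)
    have k2 : IsGδ (transDiff F lam) := by
      have := isGδ_layers hF hlam' (fun η => ¬ 2 ∣ η)
      rwa [← transDiff_compl hF, compl_compl] at this
    refine ⟨transDiff F lam, g1, ?_, baire_indicator k2 k1, ?_⟩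
    · intro x hx
      by_contra hc
      have : x ∈ transDiff F lam ∩ {x | (q : ℝ) ≤ f x} := ⟨hx, not_lt.1 hc⟩
      rw [g2] at this
      exact this
    · refine (h1 X _ k2 k1).1 η hη hη' ?_
      exact (sepRank_le hF subset_rfl (inter_compl_self _)).trans hlam
  choose G hG1 hG2 hG3 using sep
  -- thresholds
  let t : ℕ → ℕ → ℚ := fun n i => -(M : ℚ) + (i : ℚ) / ((n : ℚ) + 1)
  have ht : ∀ n i, t n i < t n (i + 1) := by
    intro n i
    simp only [t]
    have : (i : ℚ) / ((n : ℚ) + 1) < ((i + 1 : ℕ) : ℚ) / ((n : ℚ) + 1) := by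
      apply div_lt_div_of_pos_right _ (by positivity)
      push_cast; linarith
    linarith
  let S : ℕ → ℕ → Set X := fun n i => G (t n i) (t n (i + 1)) (ht n i)
  let g : ℕ → ℕ → X → ℝ := fun n K x => ((M : ℝ) + 1) +
    ∑ i ∈ Finset.range K, (-(1 / ((n : ℝ) + 1))) * (S n i).indicator (fun _ => (1 : ℝ)) x
  have hconst : Good ρ (ω ^ η) (fun _ : X => ((M : ℝ) + 1)) := by
    have := good_mul h2 hη hη' (good_closed (X := X) h1 hη hη' isClosed_univ)
      (c := (M : ℝ) + 1) (by positivity)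
    simpa using this
  have hgood : ∀ n K, Good ρ (ω ^ η) (g n K) := by
    intro n K
    induction K with
    | zero =>
      have : g n 0 = fun _ : X => ((M : ℝ) + 1) := by
        funext x; simp [g]
      rw [this]; exact hconst
    | succ K ih =>
      have : g n (K + 1) = fun x => g n K x +
          (-(1 / ((n : ℝ) + 1))) * (S n K).indicator (fun _ => (1 : ℝ)) x := by
        funext x
        simp only [g]
        rw [Finset.sum_range_succ]; ring
      rw [this]
      refine good_add h2 hη hη' ih (good_mul h2 hη hη' (hG3 _ _ _) ?_)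
      have : (0 : ℝ) < 1 / ((n : ℝ) + 1) := by positivity
      linarith
  let KK : ℕ → ℕ := fun n => (2 * M + 1) * (n + 1)
  have hclose : ∀ n x, |f x - g n (KK n) x| ≤ 1 / ((n : ℝ) + 1) := by
    intro n x
    have hn : (0 : ℝ) < (n : ℝ) + 1 := by positivity
    obtain ⟨hx1, hx2⟩ := abs_le.1 (hfM x)
    have hy0 : 0 ≤ (f x + M) * ((n : ℝ) + 1) := by
      apply mul_nonneg _ hn.le; linarith
    set j := ⌊(f x + M) * ((n : ℝ) + 1)⌋₊ with hj
    have hj1 : (j : ℝ) ≤ (f x + M) * ((n : ℝ) + 1) := Nat.floor_le hy0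
    have hj2 : (f x + M) * ((n : ℝ) + 1) < (j : ℝ) + 1 := Nat.lt_floor_add_one _
    have hjK : j + 1 ≤ KK n := by
      have h5 : (j : ℝ) < ((KK n : ℕ) : ℝ) := by
        refine lt_of_le_of_lt hj1 ?_
        simp only [KK]
        push_cast
        apply mul_lt_mul_of_pos_right _ hn
        linarith
      exact_mod_cast h5
    have hcast : ∀ i : ℕ, ((t n i : ℚ) : ℝ) = -(M : ℝ) + (i : ℝ) / ((n : ℝ) + 1) := by
      intro i; simp only [t]; push_cast; ring
    -- the values of the indicators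
    have hle : ∀ i ∈ Finset.range (KK n), (S n i).indicator (fun _ => (1 : ℝ)) x ≤
        if j ≤ i then (1 : ℝ) else 0 := by
      intro i _
      by_cases hi : j ≤ i
      · rw [if_pos hi]
        by_cases hm : x ∈ S n i
        · rw [indicator_of_mem hm]
        · rw [indicator_of_notMem hm]; norm_num
      · rw [if_neg hi]
        have hm : x ∉ S n i := by
          intro hm
          have h5 := hG2 _ _ _ x hm
          rw [hcast] at h5
          have h6 : ((i + 1 : ℕ) : ℝ) ≤ (j : ℝ) := by exact_mod_cast (not_le.1 hi)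
          have h7 : ((i + 1 : ℕ) : ℝ) / ((n : ℝ) + 1) ≤ f x + M := by
            rw [div_le_iff₀ hn]; linarith
          linarith
        rw [indicator_of_notMem hm]
    have hge : ∀ i ∈ Finset.range (KK n), (if j + 1 ≤ i then (1 : ℝ) else 0) ≤
        (S n i).indicator (fun _ => (1 : ℝ)) x := by
      intro i _
      by_cases hi : j + 1 ≤ i
      · rw [if_pos hi]
        have hm : x ∈ S n i := by
          apply hG1
          show f x ≤ ((t n i : ℚ) : ℝ)
          rw [hcast]
          have h6 : ((j + 1 : ℕ) : ℝ) ≤ (i : ℝ) := by exact_mod_cast hi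
          push_cast at h6
          have h7 : f x + M ≤ (i : ℝ) / ((n : ℝ) + 1) := by
            rw [le_div_iff₀ hn]; linarith
          linarith
        rw [indicator_of_mem hm]
      · rw [if_neg hi]
        exact indicator_nonneg (fun _ _ => zero_le_one) x
    have s1 := Finset.sum_le_sum hle
    have s2 := Finset.sum_le_sum hge
    rw [cnt] at s1 s2
    set sg := ∑ i ∈ Finset.range (KK n), (S n i).indicator (fun _ => (1 : ℝ)) x with hsg
    have hg : g n (KK n) x = ((M : ℝ) + 1) - sg / ((n : ℝ) + 1) := by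
      simp only [g]
      rw [← Finset.mul_sum, ← hsg]
      ring
    rw [Nat.cast_sub (by omega)] at s1
    rw [Nat.cast_sub hjK] at s2
    push_cast at s2
    have hKK : ((KK n : ℕ) : ℝ) = (2 * (M : ℝ) + 1) * ((n : ℝ) + 1) := by
      simp only [KK]; push_cast; ring
    rw [hKK] at s1 s2
    rw [hg, abs_le]
    have key : sg / ((n : ℝ) + 1) * ((n : ℝ) + 1) = sg := by field_simp
    have key2 : 1 / ((n : ℝ) + 1) * ((n : ℝ) + 1) = 1 := by field_simp
    constructor
    · refine le_of_mul_le_mul_right ?_ hn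
      nlinarith
    · refine le_of_mul_le_mul_right ?_ hn
      nlinarith
  have hunif : TendstoUniformly (fun n => g n (KK n)) f atTop := by
    rw [Metric.tendstoUniformly_iff]
    intro ε hε
    have hev : ∀ᶠ n : ℕ in atTop, 1 / ((n : ℝ) + 1) < ε :=
      tendsto_one_div_add_atTop_nhds_zero_nat.eventually (gt_mem_nhds hε)
    filter_upwards [hev] with n hn x
    rw [Real.dist_eq]
    exact lt_of_le_of_lt (hclose n x) hn
  refine h3 X f (fun n => g n (KK n)) hf (fun n => (hgood n _).1) hunif η hη hη' ?_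
  exact Ordinal.iSup_le fun n => (hgood n _).2

end Main

/-- Every rank on the bounded Baire class 1 functions that has the properties (P1), (P2), (P3)
and (P4) is essentially equal to the separation rank `α₁`. -/
theorem result (ρ : RankFamily) (_ : IsRank ρ) (h1 : P1 ρ) (h2 : P2 ρ) (h3 : P3 ρ) (h4 : P4 ρ)
    (X : Type) [TopologicalSpace X] [PolishSpace X] (f : X → ℝ) (hf : IsBddBaireOne f) :
    Approx (ρ X f) (alphaOne f) :=
  ⟨fun _ hη hη' h => upper h1 h2 h3 hf hη hη' h, fun _ hη hη' h => lower h1 h2 h4 hf hη hη' h⟩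

end Pool.Agent.Results.MP_12cd8a_lc.FourProperties
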